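import Pool.Agent.H62.HIL.Tg
import Pool.Agent.H62.HIL.Norm

/-!
# THEOREM S, chapter 5, row NDV: an integral element divides its norm
-/

set_option autoImplicit false

open MvPolynomial SC Pool.Agent.H27.LV
open Pool.Agent.H92.SF Pool.Agent.H3.SF
open scoped IntermediateField.algebraAdjoinAdjoin

namespace Pool.Agent.H35.SFH

theorem int_div {R F : Type} [CommRing R] [Field F] [Algebra R F] {a : F} (ha : a ≠ 0)
    (hi : IsIntegral R a) :
    IsIntegral R (algebraMap R F ((minpoly R a).coeff 0) / a) := by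
  have h1 : algebraMap R F ((minpoly R a).coeff 0) / a =
      -Polynomial.aeval a (minpoly R a).divX := by
    have h2 := minpoly.aeval R a
    rw [← Polynomial.divX_mul_X_add (minpoly R a)] at h2
    rw [map_add, map_mul, Polynomial.aeval_X, Polynomial.aeval_C] at h2
    rw [div_eq_iff ha]
    linear_combination h2
  rw [h1]
  refine IsIntegral.neg ?_
  have h3 : Algebra.adjoin R {a} ≤ integralClosure R F := by
    refine Algebra.adjoin_le ?_
    rintro x hx
    rw [Set.mem_singleton_iff] at hx
    rw [hx]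
    exact hi
  exact h3 (Polynomial.aeval_mem_adjoin_singleton R a)

theorem pf_NDV : T_NDV := by
  classical
  intro κ F _ _ _ _ N d v E hH a ha hia
  have := Pool.Agent.H62.HIL.ufd hH.ind
  have hfin : FiniteDimensional (kF κ v) F := by
    refine FiniteDimensional.of_finrank_pos ?_
    rw [hH.deg]
    exact hH.pos
  have hint : IsIntegral (Algebra.adjoin κ (Set.range v)) a :=
    Pool.Agent.H62.HIL.itg_iff.mp hia
  have hintQ : IsIntegral (kF κ v) a := hint.tower_top
  have hmin := minpoly.isIntegrallyClosed_eq_field_fractions' (kF κ v) hint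
  have hdeg : (minpoly (kF κ v) a).natDegree =
      (minpoly (Algebra.adjoin κ (Set.range v)) a).natDegree := by
    rw [hmin]
    exact (minpoly.monic hint).natDegree_map _
  obtain ⟨n, hn⟩ : ∃ n, n = (minpoly (Algebra.adjoin κ (Set.range v)) a).natDegree := ⟨_, rfl⟩
  obtain ⟨m, hm⟩ : ∃ m, m = Module.finrank (IntermediateField.adjoin (kF κ v) {a}) F := ⟨_, rfl⟩
  have hnm : n * m = Module.finrank (kF κ v) F := by
    rw [hn, hm, ← hdeg, ← IntermediateField.adjoin.finrank hintQ]
    exact Module.finrank_mul_finrank _ _ _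
  have hm0 : m ≠ 0 := by
    intro h0
    rw [h0, mul_zero, hH.deg] at hnm
    have := hH.pos
    omega
  obtain ⟨c, hc⟩ : ∃ c : F, c = algebraMap (Algebra.adjoin κ (Set.range v)) F
      ((minpoly (Algebra.adjoin κ (Set.range v)) a).coeff 0) := ⟨_, rfl⟩
  have hnorm : ((Algebra.norm (kF κ v) a : kF κ v) : F) = ((-1) ^ n * c) ^ m := by
    rw [Algebra.norm_eq_norm_adjoin, ← hm]
    have h1 := Algebra.PowerBasis.norm_gen_eq_coeff_zero_minpoly
      (IntermediateField.adjoin.powerBasis hintQ)
    rw [IntermediateField.adjoin.powerBasis_gen hintQ, IntermediateField.minpoly_gen,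
      IntermediateField.adjoin.powerBasis_dim, hdeg, hmin, Polynomial.coeff_map, ← hn] at h1
    rw [h1, hc]
    push_cast
    rfl
  obtain ⟨r, hr⟩ := Nat.exists_eq_succ_of_ne_zero hm0
  have h1 : ((Algebra.norm (kF κ v) a : kF κ v) : F) / a =
      ((-1) ^ n * c) ^ r * ((-1) ^ n * (c / a)) := by
    rw [hnorm, hr, Nat.succ_eq_add_one, pow_succ]
    field_simp
  have hci : IsIntegral (Algebra.adjoin κ (Set.range v)) c := by
    rw [hc]
    exact isIntegral_algebraMap
  have hs : IsIntegral (Algebra.adjoin κ (Set.range v)) ((-1 : F) ^ n) :=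
    (isIntegral_one.neg).pow n
  have h2 : IsIntegral (Algebra.adjoin κ (Set.range v)) (c / a) := by
    rw [hc]
    exact int_div ha hint
  rw [h1]
  exact Pool.Agent.H62.HIL.itg_iff.mpr (((hs.mul hci).pow r).mul (hs.mul h2))

end Pool.Agent.H35.SFH
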